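import Pool.Agent.Helper5.KPA.StT

/-! # Project KP, module THO: homogeneity of the trace -/

set_option autoImplicit false

namespace Pool.Agent.Helper98.KPA

open Pool.Agent.Helper5.KPA Pool.Agent.Helper52.KP MvPolynomial

/-- the polynomial `v ↦ P (b v)` -/
private noncomputable def sc {M : ℕ} (b : ℂ) (P : MvPolynomial (Fin M) ℂ) :
    MvPolynomial (Fin M) ℂ :=
  ∑ γ ∈ P.support, monomial γ (coeff γ P * b ^ (∑ i, γ i))

private lemma coeff_sc {M : ℕ} (b : ℂ) (P : MvPolynomial (Fin M) ℂ) (γ : Fin M →₀ ℕ) :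
    coeff γ (sc b P) = coeff γ P * b ^ (∑ i, γ i) := by
  classical
  unfold sc
  rw [coeff_sum]
  simp only [coeff_monomial]
  by_cases h : γ ∈ P.support
  · rw [Finset.sum_eq_single γ]
    · rw [if_pos rfl]
    · intro δ _ hδ; rw [if_neg hδ]
    · intro h'; exact absurd h h'
  · rw [Finset.sum_eq_zero, notMem_support_iff.mp h, zero_mul]
    intro δ hδ
    rw [if_neg]
    rintro rfl
    exact h hδ

private lemma eval_sc {M : ℕ} (b : ℂ) (P : MvPolynomial (Fin M) ℂ) (v : Fin M → ℂ) :
    eval v (sc b P) = eval (fun i => b * v i) P := by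
  unfold sc
  rw [map_sum, eval_eq']
  refine Finset.sum_congr rfl fun γ _ => ?_
  rw [eval_monomial, Finsupp.prod_fintype _ _ (fun i => pow_zero _), mul_assoc]
  congr 1
  simp only [mul_pow, Finset.prod_mul_distrib, Finset.prod_pow_eq_pow_sum]

private lemma scl_inv {M : ℕ} (w : Fin M → ℕ) {c : ℂ} (hc : c ≠ 0) (ζ : Fin M → ℂ) :
    scl w c (scl w c⁻¹ ζ) = ζ := by
  funext j
  unfold scl
  rw [← mul_assoc, ← mul_pow, mul_inv_cancel₀ hc, one_pow, one_mul]

private lemma scl_inj {M : ℕ} (w : Fin M → ℕ) {c : ℂ} (hc : c ≠ 0) :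
    Function.Injective (scl w c : (Fin M → ℂ) → Fin M → ℂ) := by
  intro x y h
  funext j
  have h1 := congrFun h j
  unfold scl at h1
  exact mul_left_cancel₀ (pow_ne_zero _ hc) h1

theorem hTHO : StTHO := by
  intro M a δ T hT w d hd ha p q e₁ e₂ i hq he hp1 hq1 α hα
  classical
  obtain ⟨N, D, hD, hND, hfib⟩ := hT.fib p q hq
  have hDemb : emb D ≠ 0 := by
    intro h
    exact hD (IsFractionRing.injective (MvPolynomial (Fin M) ℂ) (KK M) (h.trans (map_zero _).symm))
  have hN : N = α * D := by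
    have h1 : emb N = emb α * emb D := by
      rw [← hα, hND, div_mul_cancel₀ _ hDemb]
    have h2 : emb N = emb (α * D) := by
      rw [h1]; exact (map_mul _ _ _).symm
    exact IsFractionRing.injective (MvPolynomial (Fin M) ℂ) (KK M) h2
  obtain ⟨c, hc⟩ : ∃ c : ℂ, c = 2 := ⟨_, rfl⟩
  have hc0 : c ≠ 0 := by rw [hc]; norm_num
  have key : ∀ v : Fin M → ℂ, ev D v ≠ 0 → ev D (fun k => c ^ d * v k) ≠ 0 →
      c ^ e₂ * ev α (fun k => c ^ d * v k) = c ^ e₁ * ev α v := by
    intro v h1 h2
    obtain ⟨Z, -, hZ, hZq, hZs⟩ := hfib v h1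
    obtain ⟨Z', -, hZ', hZq', hZs'⟩ := hfib _ h2
    have e1 : ev N v / ev D v = ev α v := by
      rw [hN]
      show eval v (α * D) / eval v D = eval v α
      rw [map_mul, mul_div_assoc, div_self h1, mul_one]
    have e2 : ev N (fun k => c ^ d * v k) / ev D (fun k => c ^ d * v k) =
        ev α (fun k => c ^ d * v k) := by
      rw [hN]
      show eval _ (α * D) / eval _ D = eval _ α
      rw [map_mul, mul_div_assoc, div_self h2, mul_one]
    have himg : Z' = Z.image (scl w c) := by
      ext ζ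
      rw [hZ', Finset.mem_image]
      constructor
      · intro h
        refine ⟨scl w c⁻¹ ζ, ?_, scl_inv w hc0 ζ⟩
        rw [hZ]
        funext k
        have h3 := congrFun h k
        have h4 := ha k c (scl w c⁻¹ ζ)
        rw [scl_inv w hc0] at h4
        have h5 : c ^ d * ev (a k) (scl w c⁻¹ ζ) = c ^ d * v k := h4.symm.trans h3
        exact mul_left_cancel₀ (pow_ne_zero _ hc0) h5
      · rintro ⟨η, hη, rfl⟩
        rw [hZ] at hη
        funext k
        have h3 := congrFun hη k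
        show ev (a k) (scl w c η) = c ^ d * v k
        rw [ha k c η]
        exact congrArg (fun x => c ^ d * x) h3
    rw [e2] at hZs'
    rw [e1] at hZs
    rw [hZs', hZs, himg, Finset.sum_image (fun x _ y _ h => scl_inj w hc0 h), Finset.mul_sum,
      Finset.mul_sum]
    refine Finset.sum_congr rfl fun ζ hζ => ?_
    rw [hp1, hq1]
    have h6 := hZq ζ hζ
    have h7 : c ^ e₂ ≠ 0 := pow_ne_zero _ hc0
    field_simp
  have hpoly : C (c ^ e₂) * sc (c ^ d) α - C (c ^ e₁) * α = 0 := by
    have hscD : sc (c ^ d) D ≠ 0 := by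
      obtain ⟨γ, hγ⟩ := exists_coeff_ne_zero hD
      intro h
      have h1 := coeff_sc (c ^ d) D γ
      rw [h, coeff_zero] at h1
      exact (mul_ne_zero hγ (pow_ne_zero _ (pow_ne_zero _ hc0))) h1.symm
    have hprod : (C (c ^ e₂) * sc (c ^ d) α - C (c ^ e₁) * α) * (D * sc (c ^ d) D) = 0 := by
      refine MvPolynomial.funext fun v => ?_
      rw [map_zero, map_mul, map_mul, map_sub, map_mul, map_mul, eval_C, eval_C, eval_sc, eval_sc]
      by_cases h1 : eval v D = 0
      · rw [h1]; ring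
      by_cases h2 : eval (fun k => c ^ d * v k) D = 0
      · rw [h2]; ring
      rw [show c ^ e₂ * eval (fun k => c ^ d * v k) α = c ^ e₁ * eval v α from key v h1 h2,
        sub_self, zero_mul]
    rcases mul_eq_zero.mp hprod with h | h
    · exact h
    · exact absurd h (mul_ne_zero hD hscD)
  have hdeg : ∀ γ, coeff γ α ≠ 0 → ((∑ k, γ k : ℕ) : ℤ) = i := by
    intro γ hγ
    have h1 := congrArg (coeff γ) hpoly
    rw [coeff_sub, coeff_C_mul, coeff_C_mul, coeff_sc, coeff_zero, sub_eq_zero] at h1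
    have h2 : c ^ (e₂ + d * ∑ k, γ k) = c ^ e₁ := by
      have h3 : (c ^ e₂ * (c ^ d) ^ (∑ k, γ k)) * coeff γ α = c ^ e₁ * coeff γ α := by
        rw [← h1]; ring
      have h4 := mul_right_cancel₀ hγ h3
      rw [pow_add, pow_mul]
      exact h4
    have h3 : e₂ + d * ∑ k, γ k = e₁ := by
      rw [hc] at h2
      have h4 : (2 : ℕ) ^ (e₂ + d * ∑ k, γ k) = 2 ^ e₁ := by exact_mod_cast h2
      exact Nat.pow_right_injective (le_refl 2) h4
    have h5 : (d : ℤ) * ((∑ k, γ k : ℕ) : ℤ) = d * i := by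
      have h6 : ((e₂ + d * ∑ k, γ k : ℕ) : ℤ) = (e₁ : ℤ) := by rw [h3]
      rw [he] at h6
      push_cast at h6 ⊢
      linarith
    exact mul_left_cancel₀ (by exact_mod_cast hd.ne') h5
  unfold hp
  split_ifs with hi
  · rw [mem_homogeneousSubmodule]
    intro γ hγ
    have h1 := hdeg γ hγ
    have h2 : Finsupp.weight (1 : Fin M → ℕ) γ = ∑ k, γ k := by
      rw [Finsupp.weight_apply, Finsupp.sum_fintype]
      · simp
      · intro k; simp
    rw [h2]
    omega
  · have : α = 0 := by
      by_contra hne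
      obtain ⟨γ, hγ⟩ := exists_coeff_ne_zero hne
      have h1 := hdeg γ hγ
      omega
    rw [this]
    exact Submodule.zero_mem _

end Pool.Agent.Helper98.KPA
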